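import Pool.Agent.Y58.Skw.Main

set_option autoImplicit false
set_option linter.unusedSectionVars false

/-! Converses, and the representation for real-rooted polynomials of arbitrary degree in `y`. -/

namespace Pool.Agent.Y58.Skw

open Matrix
open Pool.Agent.W450

noncomputable section

lemma quad {n : ℕ} (B : Matrix (Fin n) (Fin n) ℝ) (v : Fin n → ℂ) :
    star v ⬝ᵥ (cm B *ᵥ v) =
      (((fun i => (v i).re) ⬝ᵥ (B *ᵥ fun i => (v i).re) +
        (fun i => (v i).im) ⬝ᵥ (B *ᵥ fun i => (v i).im) : ℝ) : ℂ) +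
      (((fun i => (v i).re) ⬝ᵥ (B *ᵥ fun i => (v i).im) -
        (fun i => (v i).im) ⬝ᵥ (B *ᵥ fun i => (v i).re) : ℝ) : ℂ) * Complex.I := by
  apply Complex.ext
  · simp only [dotProduct, mulVec, Complex.re_sum, Complex.add_re, Complex.mul_re, Complex.ofReal_re,
      Complex.ofReal_im, Complex.I_re, Complex.I_im, Pi.star_apply, Matrix.map_apply,
      Complex.star_def, Complex.conj_re, Complex.conj_im, Complex.im_sum, Complex.mul_im]
    rw [← Finset.sum_add_distrib]
    simp only [mul_zero, mul_one, sub_zero, add_zero, zero_mul]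
    refine Finset.sum_congr rfl fun i _ => ?_
    ring
  · simp only [dotProduct, mulVec, Complex.re_sum, Complex.add_im, Complex.mul_re, Complex.ofReal_re,
      Complex.ofReal_im, Complex.I_re, Complex.I_im, Pi.star_apply, Matrix.map_apply,
      Complex.star_def, Complex.conj_re, Complex.conj_im, Complex.im_sum, Complex.mul_im]
    rw [← Finset.sum_sub_distrib]
    simp only [mul_zero, mul_one, sub_zero, add_zero, zero_mul, zero_add]
    refine Finset.sum_congr rfl fun i _ => ?_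
    ring

lemma dot_comm_of_transpose {n : ℕ} (B : Matrix (Fin n) (Fin n) ℝ) (a b : Fin n → ℝ) :
    a ⬝ᵥ (B *ᵥ b) = b ⬝ᵥ (Bᵀ *ᵥ a) := by
  rw [mulVec_transpose, dotProduct_comm b, ← dotProduct_mulVec]

lemma quad_sym {n : ℕ} {B : Matrix (Fin n) (Fin n) ℝ} (hB : Bᵀ = B) (v : Fin n → ℂ) :
    (star v ⬝ᵥ (cm B *ᵥ v)).im = 0 := by
  rw [quad]
  have h1 := dot_comm_of_transpose B (fun i => (v i).re) (fun i => (v i).im)
  rw [hB] at h1
  simp [h1]

lemma quad_skew {n : ℕ} {B : Matrix (Fin n) (Fin n) ℝ} (hB : Bᵀ = -B) (v : Fin n → ℂ) :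
    (star v ⬝ᵥ (cm B *ᵥ v)).re = 0 := by
  rw [quad]
  have h1 := dot_comm_of_transpose B (fun i => (v i).re) (fun i => (v i).re)
  have h2 := dot_comm_of_transpose B (fun i => (v i).im) (fun i => (v i).im)
  rw [hB, neg_mulVec, dotProduct_neg] at h1 h2
  have h3 : (fun i => (v i).re) ⬝ᵥ (B *ᵥ fun i => (v i).re) = 0 := by linarith
  have h4 : (fun i => (v i).im) ⬝ᵥ (B *ᵥ fun i => (v i).im) = 0 := by linarith
  rw [h3, h4]
  simp

lemma quad_psd {n : ℕ} {B : Matrix (Fin n) (Fin n) ℝ} (hB : B.PosSemidef) (v : Fin n → ℂ) :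
    0 ≤ (star v ⬝ᵥ (cm B *ᵥ v)).re := by
  rw [quad]
  have h1 := hB.dotProduct_mulVec_nonneg (fun i => (v i).re)
  have h2 := hB.dotProduct_mulVec_nonneg (fun i => (v i).im)
  simp only [star_trivial] at h1 h2
  simp
  linarith

lemma det_ne {n : ℕ} {A B₁ B₂ : Matrix (Fin n) (Fin n) ℝ} (hA : Aᵀ = -A) (h1 : B₁.PosSemidef)
    (h2 : B₂.PosSemidef) (h3 : B₁ + B₂ = 1) {x y : ℂ} (hx : 0 < x.im) (hy : 0 < y.im) :
    (cm A + Complex.I • (x • cm B₁ + y • cm B₂)).det ≠ 0 := by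
  intro h0
  obtain ⟨v, hv, hMv⟩ := Matrix.exists_mulVec_eq_zero_iff.2 h0
  have e : star v ⬝ᵥ ((cm A + Complex.I • (x • cm B₁ + y • cm B₂)) *ᵥ v) = 0 := by
    rw [hMv, dotProduct_zero]
  rw [add_mulVec, dotProduct_add, smul_mulVec, dotProduct_smul, add_mulVec, dotProduct_add,
    smul_mulVec, dotProduct_smul, smul_mulVec, dotProduct_smul] at e
  have qa := quad_skew hA v
  have s1 : B₁ᵀ = B₁ := by
    have := h1.isHermitian
    rwa [Matrix.IsHermitian, conjTranspose_eq_transpose_of_trivial] at this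
  have s2 : B₂ᵀ = B₂ := by
    have := h2.isHermitian
    rwa [Matrix.IsHermitian, conjTranspose_eq_transpose_of_trivial] at this
  have i1 := quad_sym s1 v
  have i2 := quad_sym s2 v
  have p1 := quad_psd h1 v
  have p2 := quad_psd h2 v
  have hsum : star v ⬝ᵥ (cm B₁ *ᵥ v) + star v ⬝ᵥ (cm B₂ *ᵥ v) = star v ⬝ᵥ v := by
    rw [← dotProduct_add, ← add_mulVec]
    have : cm B₁ + cm B₂ = 1 := by
      have h4 : cm (B₁ + B₂) = cm B₁ + cm B₂ := by ext i j; simp
      rw [← h4, h3]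
      ext i j
      simp [Matrix.one_apply]
      split_ifs <;> simp
    rw [this, one_mulVec]
  have hpos : 0 < (star v ⬝ᵥ v).re := by
    have h5 : (star v ⬝ᵥ v) = ((∑ i, ‖v i‖ ^ 2 : ℝ) : ℂ) := by
      rw [dotProduct]
      push_cast
      refine Finset.sum_congr rfl fun i _ => ?_
      rw [Pi.star_apply, Complex.star_def, mul_comm, Complex.mul_conj, Complex.normSq_eq_norm_sq]
      push_cast
      rfl
    rw [h5, Complex.ofReal_re]
    obtain ⟨i, hi⟩ : ∃ i, v i ≠ 0 := by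
      by_contra hcon
      push Not at hcon
      exact hv (funext hcon)
    exact Finset.sum_pos' (fun _ _ => by positivity) ⟨i, Finset.mem_univ _, by
      have := norm_pos_iff.2 hi
      positivity⟩
  rw [← hsum, Complex.add_re] at hpos
  have e' := congrArg Complex.re e
  simp only [Complex.add_re, Complex.zero_re, smul_eq_mul, Complex.mul_re, Complex.mul_im,
    Complex.I_re, Complex.I_im, Complex.add_im, i1, i2, qa] at e'
  have e2 : x.im * (star v ⬝ᵥ (cm B₁ *ᵥ v)).re + y.im * (star v ⬝ᵥ (cm B₂ *ᵥ v)).re = 0 := by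
    linarith
  have m1 : 0 ≤ x.im * (star v ⬝ᵥ (cm B₁ *ᵥ v)).re := by positivity
  have m2 : 0 ≤ y.im * (star v ⬝ᵥ (cm B₂ *ᵥ v)).re := by positivity
  have z1 : (star v ⬝ᵥ (cm B₁ *ᵥ v)).re = 0 := by
    rcases mul_eq_zero.1 (show x.im * (star v ⬝ᵥ (cm B₁ *ᵥ v)).re = 0 by linarith) with h | h
    · linarith
    · exact h
  have z2 : (star v ⬝ᵥ (cm B₂ *ᵥ v)).re = 0 := by
    rcases mul_eq_zero.1 (show y.im * (star v ⬝ᵥ (cm B₂ *ᵥ v)).re = 0 by linarith) with h | h
    · linarith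
    · exact h
  linarith

end

end Pool.Agent.Y58.Skw
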