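import Pool.Agent.W450.Det10

set_option autoImplicit false
set_option linter.unusedSectionVars false

/-! Skew realisations of monic polynomials with imaginary roots on the imaginary axis, without any
condition on the degree of the coefficients. -/

namespace Pool.Agent.Y58.Skw

open Polynomial Matrix Filter Topology
open Pool.Agent.W450
open scoped ComplexOrder MatrixOrder

noncomputable section

/-- the roots of `q(·, iτ)` are purely imaginary -/
def ImRoots (q : ℝ[X][X]) : Prop := ∀ (τ : ℝ) (s : ℂ), (q.map (ev τ)).eval s = 0 → s.re = 0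

lemma ImRoots.of_dvd {q r : ℝ[X][X]} (h : ImRoots q) (hd : r ∣ q) : ImRoots r := by
  obtain ⟨w, rfl⟩ := hd
  refine fun τ s hs => h τ s ?_
  rw [Polynomial.map_mul, eval_mul, hs, zero_mul]

section
variable {r : ℝ[X][X]} (hm : r.Monic)

lemma exists_pair_im (hr : Irreducible r) (hok : ImRoots r) : Pair (mulM hm) (herm hm) := by
  obtain ⟨S, hS, hgood⟩ := exists_good r hr hm
  have key : ∀ τ, τ ∉ S → ∃ l : Fin r.natDegree → ℂ, Function.Injective l ∧
      (∀ k, star (l k) = - l k) ∧ evm τ (herm hm) = (vandermonde l)ᴴ * vandermonde l ∧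
      vandermonde l * evm τ (mulM hm) = diagonal l * vandermonde l := by
    intro τ hτ
    obtain ⟨l, hinj, hl⟩ := hgood τ hτ
    have hre : ∀ k, (l k).re = 0 := fun k => hok τ _ (hl k)
    refine ⟨l, hinj, fun k => ?_, evm_herm_eq hm τ l hinj hl hre, vandermonde_mulM hm τ l hl⟩
    apply Complex.ext <;> simp [hre k]
  have hst : st (herm hm) = herm hm := by
    apply matrix_eq_of_ev hS
    intro τ hτ
    obtain ⟨l, -, -, h1, -⟩ := key τ hτ
    rw [evm_st, h1, conjTranspose_mul, conjTranspose_conjTranspose]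
  refine ⟨hst, ?_, ?_, ?_⟩
  · apply matrix_eq_of_ev hS
    intro τ hτ
    obtain ⟨l, -, hl, h1, h2⟩ := key τ hτ
    have e : evm τ (-(herm hm * mulM hm)) = -(evm τ (herm hm) * evm τ (mulM hm)) := by
      rw [← evm_mul]; ext i j; simp
    rw [e, evm_mul, evm_st, h1, ← Matrix.mul_assoc, ← conjTranspose_mul, h2, Matrix.mul_assoc, h2,
      conjTranspose_mul, diagonal_conjTranspose]
    have e2 : diagonal (star l) = - diagonal l := by
      have : star l = -l := by funext k; exact hl k
      rw [this, diagonal_neg]; rfl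
    rw [e2, Matrix.mul_neg, Matrix.neg_mul, Matrix.mul_assoc]
  · apply psd_of_ae _ hst hS
    intro τ hτ
    obtain ⟨l, -, -, h1, -⟩ := key τ hτ
    rw [h1]
    exact posSemidef_conjTranspose_mul_self _
  · intro h0
    obtain ⟨τ, hτ⟩ : ∃ τ, τ ∉ S := by
      by_contra hcon
      push Not at hcon
      exact Set.infinite_univ (hS.subset (fun τ _ => hcon τ))
    obtain ⟨l, hinj, -, h1, -⟩ := key τ hτ
    have h2 := det_evm τ (herm hm)
    rw [h0, map_zero, h1, det_mul, det_conjTranspose] at h2
    have h3 := det_vandermonde_ne_zero_iff.2 hinj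
    rcases mul_eq_zero.1 h2 with h4 | h4
    · exact h3 (star_eq_zero.1 h4)
    · exact h3 h4

end

lemma exists_skew_irreducible_im {r : ℝ[X][X]} (hm : r.Monic) (hr : Irreducible r) (hok : ImRoots r) :
    ∃ (N : ℕ) (M : Matrix (Fin N) (Fin N) ℝ[X]), st M = -M ∧ M.charpoly = r := by
  obtain ⟨M, h1, h2⟩ := (exists_pair_im hm hr hok).exists_skew
  exact ⟨_, M, h1, h2.trans (charpoly_mulM hm)⟩

/-- The skew realisation of a monic polynomial with imaginary roots on the imaginary axis. -/
lemma exists_skew_im (q : ℝ[X][X]) (hm : q.Monic) (hok : ImRoots q) :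
    ∃ (N : ℕ) (M : Matrix (Fin N) (Fin N) ℝ[X]), st M = -M ∧ M.charpoly = q := by
  induction' hd : q.natDegree using Nat.strong_induction_on with d ih generalizing q
  by_cases hu : IsUnit q
  · have hq1 : q = 1 := hm.eq_one_of_isUnit hu
    refine ⟨0, 0, ?_, ?_⟩
    · ext i; exact i.elim0
    · rw [hq1, Matrix.charpoly]; simp
  obtain ⟨r0, hr0, hr0d⟩ := WfDvdMonoid.exists_irreducible_factor hu hm.ne_zero
  obtain ⟨w0, hw0⟩ := hr0d
  have hlc : r0.leadingCoeff * w0.leadingCoeff = 1 := by
    rw [← leadingCoeff_mul, ← hw0]; exact hm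
  have hlc' : w0.leadingCoeff * r0.leadingCoeff = 1 := by rw [mul_comm]; exact hlc
  set r := C w0.leadingCoeff * r0 with hr
  set w := C r0.leadingCoeff * w0 with hw
  have hq : q = r * w := by
    have : (C w0.leadingCoeff : ℝ[X][X]) * C r0.leadingCoeff = 1 := by
      rw [← C_mul, hlc', C_1]
    rw [hr, hw, hw0]
    linear_combination (-r0 * w0) * this
  have hrm : r.Monic := by
    rw [Monic, hr, leadingCoeff_mul, leadingCoeff_C, hlc']
  have hwm : w.Monic := by
    rw [Monic, hw, leadingCoeff_mul, leadingCoeff_C, hlc]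
  have hrirr : Irreducible r := by
    have hunit : IsUnit (C w0.leadingCoeff : ℝ[X][X]) :=
      (IsUnit.of_mul_eq_one _ hlc').map C
    rw [hr]
    exact (irreducible_isUnit_mul hunit).2 hr0
  have hdeg : q.natDegree = r.natDegree + w.natDegree := by
    rw [hq]; exact hrm.natDegree_mul hwm
  have hrpos : 0 < r.natDegree := by
    by_contra h0
    have h1 : r.natDegree = 0 := by omega
    have : r = 1 := by
      rw [← hrm.degree_le_zero_iff_eq_one, degree_eq_natDegree hrm.ne_zero, h1]; simp
    rw [this] at hrirr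
    exact not_irreducible_one hrirr
  obtain ⟨N1, M1, h1, h2⟩ := exists_skew_irreducible_im hrm hrirr (hok.of_dvd ⟨w, hq⟩)
  obtain ⟨N2, M2, h3, h4⟩ := ih w.natDegree (by omega) w hwm
    (hok.of_dvd ⟨r, by rw [hq, mul_comm]⟩) rfl
  refine ⟨N1 + N2, (Matrix.fromBlocks M1 0 0 M2).submatrix finSumFinEquiv.symm finSumFinEquiv.symm,
    ?_, ?_⟩
  · have h5 : st (Matrix.fromBlocks M1 0 0 M2) = -Matrix.fromBlocks M1 0 0 M2 := by
      unfold st at h1 h3 ⊢
      rw [Matrix.fromBlocks_map, Matrix.fromBlocks_transpose, h1, h3, Matrix.fromBlocks_neg]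
      simp
    have h6 := congrArg (fun A => A.submatrix (finSumFinEquiv (m := N1) (n := N2)).symm
      finSumFinEquiv.symm) h5
    exact h6
  · have := Matrix.charpoly_reindex (finSumFinEquiv (m := N1) (n := N2)) (Matrix.fromBlocks M1 0 0 M2)
    rw [Matrix.reindex_apply] at this
    rw [this, Matrix.charpoly_fromBlocks_zero₁₂, h2, h4, hq]

end

end Pool.Agent.Y58.Skw
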