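import Pool.Agent.Y58.Skw.Gen

set_option autoImplicit false
set_option linter.unusedSectionVars false

/-! Polynomials in `x`, `y` whose leading coefficient in `x` is a constant, which have no zeros with
`y` real and `Im x > 0`, and whose monomials have degrees of one parity. -/

namespace Pool.Agent.Y58.Skw

open Polynomial Matrix Filter Topology
open Pool.Agent.W450
open scoped ComplexOrder MatrixOrder

noncomputable section

lemma eq_top0' {m : Fin 2 →₀ ℕ} {n : ℕ} (h0 : m 0 = n) (h1 : m 1 = 0) : m = top0 n := by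
  ext i
  fin_cases i
  · simpa using h0
  · simpa using h1

lemma gen_monic' {R : Type*} [CommRing R] [Nontrivial R] (S : Finset (Fin 2 →₀ ℕ)) (n : ℕ)
    (hS : ∀ m ∈ S, m 0 ≤ n ∧ (m 0 = n → m 1 = 0)) (f : (Fin 2 →₀ ℕ) → R) (hf : f (top0 n) = 1)
    (hmem : top0 n ∈ S) :
    (∑ m ∈ S, C (f m) * X ^ (m 0) : R[X]).Monic ∧
      (∑ m ∈ S, C (f m) * X ^ (m 0) : R[X]).natDegree = n := by
  have h1 : (∑ m ∈ S, C (f m) * X ^ (m 0) : R[X]) =
      X ^ n + ∑ m ∈ S.erase (top0 n), C (f m) * X ^ (m 0) := by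
    rw [← Finset.add_sum_erase S _ hmem, hf]
    simp
  have h2 : (∑ m ∈ S.erase (top0 n), C (f m) * X ^ (m 0) : R[X]).degree < n := by
    rw [degree_lt_iff_coeff_zero]
    intro k hk
    rw [finsetSum_coeff]
    refine Finset.sum_eq_zero fun m hm => ?_
    have h3 := hS m (Finset.mem_of_mem_erase hm)
    have h4 := Finset.ne_of_mem_erase hm
    have h5 : m 0 < n := by
      by_contra hcon
      have h6 : m 0 = n := le_antisymm h3.1 (by omega)
      exact h4 (eq_top0' h6 (h3.2 h6))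
    rw [coeff_C_mul, coeff_X_pow, if_neg (by omega), mul_zero]
  rw [h1]
  refine ⟨monic_X_pow_add h2, natDegree_eq_of_degree_eq_some ?_⟩
  rw [degree_add_eq_left_of_degree_lt (by rwa [degree_X_pow]), degree_X_pow]

/-- a normalised polynomial, given by its coefficients -/
structure HP (n : ℕ) (S : Finset (Fin 2 →₀ ℕ)) (c : (Fin 2 →₀ ℕ) → ℂ) : Prop where
  lex : ∀ m ∈ S, m 0 ≤ n ∧ (m 0 = n → m 1 = 0)
  mem : top0 n ∈ S
  one : c (top0 n) = 1
  par : ∀ m ∈ S, (m 0 + m 1) % 2 = n % 2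
  hyp : ∀ (x : ℂ) (y : ℝ), 0 < x.im → fn S c x y ≠ 0

variable {n : ℕ} {S : Finset (Fin 2 →₀ ℕ)} {c : (Fin 2 →₀ ℕ) → ℂ}

lemma HP.sec_monic (h : HP n S c) (y : ℂ) : (sec S c y).Monic ∧ (sec S c y).natDegree = n :=
  gen_monic' S n h.lex (fun m => c m * y ^ m 1) (by simp [h.one]) h.mem

lemma fn_neg_of_par (hpar : ∀ m ∈ S, (m 0 + m 1) % 2 = n % 2) (x y : ℂ) :
    fn S c (-x) (-y) = (-1) ^ n * fn S c x y := by
  simp only [fn, Finset.mul_sum]
  refine Finset.sum_congr rfl fun m hm => ?_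
  have h1 := hpar m hm
  rw [neg_pow x, neg_pow y]
  have h2 : ((-1 : ℂ)) ^ n = (-1) ^ (m 0) * (-1) ^ (m 1) := by
    rw [← pow_add]
    rcases Nat.mod_two_eq_zero_or_one n with h3 | h3
    · rw [(Nat.even_iff.2 h3).neg_one_pow, (Nat.even_iff.2 (h1.trans h3)).neg_one_pow]
    · rw [(Nat.odd_iff.2 h3).neg_one_pow, (Nat.odd_iff.2 (h1.trans h3)).neg_one_pow]
  rw [h2]; ring

/-- for real `y` all roots are real -/
lemma HP.real_roots (h : HP n S c) (x : ℂ) (y : ℝ) (h0 : fn S c x y = 0) : x.im = 0 := by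
  rcases lt_trichotomy x.im 0 with h1 | h1 | h1
  · exfalso
    have h2 := h.hyp (-x) (-y) (by simpa using h1)
    apply h2
    have h3 := fn_neg_of_par (c := c) h.par x (y : ℂ)
    rw [h0, mul_zero] at h3
    push_cast
    exact h3
  · exact h1
  · exact absurd h0 (h.hyp x y h1)

/-- the coefficients are real -/
lemma HP.real_coeff (h : HP n S c) : ∀ m ∈ S, (c m).im = 0 := by
  have hreal : ∀ x y : ℝ, star (fn S c x y) = fn S c x y := by
    intro x y
    obtain ⟨h1, h2⟩ := h.sec_monic (y : ℂ)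
    have hs := IsAlgClosed.splits (sec S c (y : ℂ))
    rw [← eval_sec, hs.eval_eq_prod_roots_of_monic h1]
    have h3 : ∀ z ∈ (sec S c (y : ℂ)).roots, star z = z := by
      intro z hz
      rw [mem_roots h1.ne_zero, IsRoot, eval_sec] at hz
      have := h.real_roots z y hz
      apply Complex.ext <;> simp [this]
    rw [← starRingEnd_apply, map_multiset_prod, Multiset.map_map]
    congr 1
    refine Multiset.map_congr rfl fun z hz => ?_
    simp only [Function.comp_apply, map_sub, Complex.conj_ofReal]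
    rw [starRingEnd_apply, h3 z hz]
  set P : MvPolynomial (Fin 2) ℂ := ∑ m ∈ S, MvPolynomial.monomial m (c m - star (c m)) with hP
  have hP0 : P = 0 := by
    apply MvPolynomial.funext_set (fun _ : Fin 2 => Set.range ((↑) : ℝ → ℂ))
    · intro i
      exact Set.infinite_range_of_injective Complex.ofReal_injective
    · intro v hv
      obtain ⟨x, hx⟩ := hv 0 (Set.mem_univ _)
      obtain ⟨y, hy⟩ := hv 1 (Set.mem_univ _)
      rw [map_zero, hP, map_sum]
      have h1 := hreal x y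
      have h2 : fn S c x y - star (fn S c x y) = 0 := by rw [h1, sub_self]
      rw [← h2]
      unfold fn
      rw [star_sum, ← Finset.sum_sub_distrib]
      refine Finset.sum_congr rfl fun m _ => ?_
      rw [MvPolynomial.eval_monomial, Finsupp.prod_fintype _ _ (by simp), Fin.prod_univ_two, ← hx,
        ← hy]
      simp only [star_mul', star_pow, Complex.star_def, Complex.conj_ofReal]
      ring
  intro m hm
  have h1 : P.coeff m = c m - star (c m) := by
    rw [hP, MvPolynomial.coeff_sum]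
    simp only [MvPolynomial.coeff_monomial]
    rw [Finset.sum_ite_eq' S m, if_pos hm]
  rw [hP0, MvPolynomial.coeff_zero] at h1
  have h2 := congrArg Complex.im h1
  simp at h2
  linarith

lemma real_ipow {n j : ℕ} (h : j % 2 = n % 2) :
    ∃ e : ℝ, Complex.I ^ n * (-Complex.I) ^ j = (e : ℂ) := by
  obtain ⟨k, hk⟩ : ∃ k, n + j = 2 * k := ⟨(n + j) / 2, by omega⟩
  refine ⟨(-1) ^ j * (-1) ^ k, ?_⟩
  rw [neg_pow]
  have h1 : Complex.I ^ n * Complex.I ^ j = (-1) ^ k := by
    rw [← pow_add, hk, pow_mul, Complex.I_sq]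
  push_cast
  linear_combination ((-1) ^ j : ℂ) * h1

lemma HP.rho_eq (h : HP n S c) (m : Fin 2 →₀ ℕ) (hm : m ∈ S) :
    (rho n c m : ℂ) = Complex.I ^ n * (-Complex.I) ^ (m 0 + m 1) * c m := by
  obtain ⟨e, he⟩ := real_ipow (h.par m hm)
  have h5 : (c m) = ((c m).re : ℂ) := by
    apply Complex.ext <;> simp [h.real_coeff m hm]
  unfold rho
  rw [he, h5]
  rw [← Complex.ofReal_mul, Complex.ofReal_re]

lemma HP.eval_qq (h : HP n S c) (s t : ℂ) :
    ((qq n S c).map (evc t)).eval s = Complex.I ^ n * fn S c (-Complex.I * s) (-Complex.I * t) := by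
  unfold qq fn
  rw [Polynomial.map_sum, eval_finsetSum, Finset.mul_sum]
  refine Finset.sum_congr rfl fun m hm => ?_
  rw [Polynomial.map_mul, Polynomial.map_C, Polynomial.map_pow, Polynomial.map_X, eval_mul, eval_C,
    eval_pow, eval_X, map_mul, map_pow, evc_C, evc_X, h.rho_eq m hm, mul_pow, mul_pow, pow_add]
  ring

lemma HP.qq_monic (h : HP n S c) : (qq n S c).Monic ∧ (qq n S c).natDegree = n := by
  refine gen_monic' S n h.lex (fun m => C (rho n c m) * X ^ (m 1)) ?_ h.mem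
  have h1 := h.rho_eq (top0 n) h.mem
  rw [h.one] at h1
  have h2 : (rho n c (top0 n) : ℂ) = 1 := by
    rw [h1]
    simp only [Finsupp.single_eq_same, mul_one]
    rw [Finsupp.single_eq_of_ne (by decide), add_zero, ← mul_pow]
    simp
  have h3 : rho n c (top0 n) = 1 := by exact_mod_cast h2
  rw [h3, Finsupp.single_eq_of_ne (by decide)]
  simp

lemma HP.imRoots (h : HP n S c) : ImRoots (qq n S c) := by
  intro τ s hs
  rw [ev_eq_evc, h.eval_qq] at hs
  have h1 : -Complex.I * (Complex.I * (τ : ℂ)) = (τ : ℂ) := by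
    rw [← mul_assoc]; simp
  rw [h1] at hs
  have h2 : fn S c (-Complex.I * s) (τ : ℂ) = 0 := by
    rcases mul_eq_zero.1 hs with h3 | h3
    · exact absurd h3 (pow_ne_zero _ Complex.I_ne_zero)
    · exact h3
  have := h.real_roots _ _ h2
  simpa using this

/-- growth of the roots, under a bound for the total degree -/
lemma HP.growth (h : HP n S c) (hdeg : ∀ m ∈ S, m 0 + m 1 ≤ n) :
    ∃ K : ℝ, ∀ (x : ℂ) (y : ℝ), fn S c x y = 0 → ‖x‖ ≤ K * (1 + |y|) := by
  set A := ∑ m ∈ S.erase (top0 n), ‖c m‖ with hA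
  have hA0 : 0 ≤ A := Finset.sum_nonneg fun _ _ => norm_nonneg _
  refine ⟨1 + A, fun x y h0 => ?_⟩
  by_contra hcon
  push Not at hcon
  have hy : 0 ≤ |y| := abs_nonneg y
  have hx1 : 1 + |y| ≤ ‖x‖ := by
    have : 1 * (1 + |y|) ≤ (1 + A) * (1 + |y|) := by
      apply mul_le_mul_of_nonneg_right <;> linarith
    linarith
  have hxpos : 0 < ‖x‖ := by linarith
  have hn : n ≠ 0 := by
    rintro rfl
    have h1 : S = {top0 0} := by
      ext m
      rw [Finset.mem_singleton]
      constructor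
      · intro hm
        exact eq_top0 (hdeg m hm) (Nat.zero_le _)
      · rintro rfl; exact h.mem
    have h2 : fn S c x y = 1 := by
      have h3 := h.one
      unfold fn
      rw [h1, Finset.sum_singleton, h3]
      simp
    rw [h2] at h0
    exact one_ne_zero h0
  have h1 : x ^ n = -∑ m ∈ S.erase (top0 n), c m * x ^ m 0 * (y : ℂ) ^ m 1 := by
    unfold fn at h0
    rw [← Finset.add_sum_erase S _ h.mem, h.one] at h0
    simp only [Finsupp.single_eq_same, Finsupp.single_apply] at h0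
    simp at h0
    linear_combination h0
  have h2 : ‖x‖ ^ n ≤ A * (‖x‖ ^ (n - 1) * (1 + |y|)) := by
    rw [← norm_pow, h1, norm_neg, hA, Finset.sum_mul]
    refine (norm_sum_le _ _).trans (Finset.sum_le_sum fun m hm => ?_)
    rw [norm_mul, norm_mul, norm_pow, norm_pow, Complex.norm_real, Real.norm_eq_abs, mul_assoc]
    refine mul_le_mul_of_nonneg_left ?_ (norm_nonneg _)
    have h3 := hdeg m (Finset.mem_of_mem_erase hm)
    have h5 : m 0 < n := by
      by_contra hcon
      exact Finset.ne_of_mem_erase hm (eq_top0 h3 (by omega))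
    have h6 : |y| ^ m 1 ≤ (1 + |y|) ^ (n - m 0) := by
      calc |y| ^ m 1 ≤ (1 + |y|) ^ m 1 := pow_le_pow_left₀ hy (by linarith) _
        _ ≤ (1 + |y|) ^ (n - m 0) := pow_le_pow_right₀ (by linarith) (by omega)
    have h7 : (1 + |y|) ^ (n - m 0) ≤ ‖x‖ ^ (n - 1 - m 0) * (1 + |y|) := by
      have : n - m 0 = (n - 1 - m 0) + 1 := by omega
      rw [this, pow_succ]
      exact mul_le_mul_of_nonneg_right (pow_le_pow_left₀ (by linarith) hx1 _) (by linarith)
    calc ‖x‖ ^ m 0 * |y| ^ m 1 ≤ ‖x‖ ^ m 0 * (‖x‖ ^ (n - 1 - m 0) * (1 + |y|)) :=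
          mul_le_mul_of_nonneg_left (h6.trans h7) (by positivity)
      _ = ‖x‖ ^ (n - 1) * (1 + |y|) := by
          rw [← mul_assoc, ← pow_add]; congr 2; omega
  have h3 : ‖x‖ ^ n = ‖x‖ ^ (n - 1) * ‖x‖ := by
    rw [← pow_succ]; congr 1; omega
  rw [h3] at h2
  have h4 : ‖x‖ ≤ A * (1 + |y|) := by
    have h5 : 0 < ‖x‖ ^ (n - 1) := by positivity
    have h6 : ‖x‖ ^ (n - 1) * ‖x‖ ≤ ‖x‖ ^ (n - 1) * (A * (1 + |y|)) := by
      linarith [h2]
    exact le_of_mul_le_mul_left h6 h5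
  nlinarith

lemma HP.rootsOk (h : HP n S c) (hdeg : ∀ m ∈ S, m 0 + m 1 ≤ n) : RootsOk (qq n S c) := by
  obtain ⟨K, hK⟩ := h.growth hdeg
  refine ⟨K, fun τ s hs => ⟨h.imRoots τ s hs, ?_⟩⟩
  rw [ev_eq_evc, h.eval_qq] at hs
  have h1 : -Complex.I * (Complex.I * (τ : ℂ)) = (τ : ℂ) := by
    rw [← mul_assoc]; simp
  rw [h1] at hs
  have h2 : fn S c (-Complex.I * s) (τ : ℂ) = 0 := by
    rcases mul_eq_zero.1 hs with h3 | h3
    · exact absurd h3 (pow_ne_zero _ Complex.I_ne_zero)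
    · exact h3
  have := hK _ _ h2
  simpa using this

/-- the matrix polynomial `M(t)` with `M(-t)ᵀ = -M(t)` and `p(x, y) = (-i)^n det(i x - M(i y))` -/
lemma HP.exists_poly (h : HP n S c) : ∃ M : Matrix (Fin n) (Fin n) ℝ[X], st M = -M ∧
    (∀ x y : ℂ, fn S c x y =
      (-Complex.I) ^ n * ((Matrix.scalar (Fin n)) (Complex.I * x) - M.map (evc (Complex.I * y))).det)
    ∧ M.charpoly = qq n S c := by
  obtain ⟨N, M, hM, hc⟩ := exists_skew_im _ h.qq_monic.1 h.imRoots
  have hN : N = n := by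
    have := Matrix.charpoly_natDegree_eq_dim M
    rw [hc, h.qq_monic.2, Fintype.card_fin] at this
    exact this.symm
  subst hN
  refine ⟨M, hM, fun x y => ?_, hc⟩
  have h4 := h.eval_qq (Complex.I * x) (Complex.I * y)
  have e1 : -Complex.I * (Complex.I * x) = x := by rw [← mul_assoc]; simp
  have e2 : -Complex.I * (Complex.I * y) = y := by rw [← mul_assoc]; simp
  rw [e1, e2, ← hc, ← Matrix.charpoly_map, Matrix.eval_charpoly] at h4
  rw [h4, ← mul_assoc, ← mul_pow]
  simp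

lemma HP.exists_linear (h : HP n S c) (hdeg : ∀ m ∈ S, m 0 + m 1 ≤ n) :
    ∃ A B : Matrix (Fin n) (Fin n) ℝ, Aᵀ = -A ∧ Bᵀ = B ∧ ∀ x y : ℂ,
      fn S c x y = (-Complex.I) ^ n * (cm A + Complex.I • (x • 1 + y • cm B)).det := by
  obtain ⟨M, hM, hdet, hc⟩ := h.exists_poly
  obtain ⟨M0, M1, h1, h2, h3⟩ := Pool.Agent.W450.exists_linear M hM (by rw [hc]; exact h.rootsOk hdeg)
  refine ⟨-M0, -M1, by rw [transpose_neg, h2], by rw [transpose_neg, h3], fun x y => ?_⟩
  rw [hdet]
  congr 2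
  ext i j
  rw [h1]
  simp [Matrix.scalar_apply, Matrix.diagonal_apply, Matrix.one_apply]
  split_ifs <;> ring

end

end Pool.Agent.Y58.Skw
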