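import Pool.Agent.Y58.Skw.Top

set_option autoImplicit false
set_option linter.unusedSectionVars false

/-! Determinantal representations of stable polynomials with parity, without conditions on the top
form. -/

namespace Pool.Agent.Y58.Skw

open Matrix Filter Topology
open Pool.Agent.W450

noncomputable section

lemma eq_at_zero {f g : ℝ → ℂ} (hf : Continuous f) (hg : Continuous g)
    (h : ∀ s, 0 < s → f s = g s) : f 0 = g 0 := by
  have t0 : Tendsto (fun k : ℕ => (1 / ((k : ℝ) + 1) : ℝ)) atTop (𝓝 0) :=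
    tendsto_one_div_add_atTop_nhds_zero_nat
  have a1 := (hf.tendsto 0).comp t0
  have a2 := (hg.tendsto 0).comp t0
  refine tendsto_nhds_unique a1 (a2.congr fun k => ?_)
  exact (h _ (by positivity)).symm

/-- a symmetric matrix `B` such that `a B + b (1 - B)` is never singular for `a, b > 0` -/
lemma psd_of_pencil {n : ℕ} {B : Matrix (Fin n) (Fin n) ℝ} (hB : Bᵀ = B)
    (h : ∀ a b : ℝ, 0 < a → 0 < b → (a • B + b • (1 - B)).det ≠ 0) : B.PosSemidef := by
  have hH : B.IsHermitian := by
    unfold Matrix.IsHermitian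
    rw [conjTranspose_eq_transpose_of_trivial, hB]
  rw [hH.posSemidef_iff_eigenvalues_nonneg]
  intro i
  rw [Pi.zero_apply]
  by_contra hcon
  push Not at hcon
  set v : Fin n → ℝ := ⇑(hH.eigenvectorBasis i) with hv
  have hBv : B *ᵥ v = hH.eigenvalues i • v := hH.mulVec_eigenvectorBasis i
  have hv0 : v ≠ 0 := by
    intro h0
    have h1 := hH.eigenvectorBasis.orthonormal.1 i
    have h2 : hH.eigenvectorBasis i = 0 := by
      ext j; exact congrFun h0 j
    rw [h2] at h1
    simp at h1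
  set β := hH.eigenvalues i with hβ
  refine h (1 - β) (-β) (by linarith) (by linarith) ?_
  rw [← Matrix.exists_mulVec_eq_zero_iff]
  refine ⟨v, hv0, ?_⟩
  rw [add_mulVec, smul_mulVec, smul_mulVec, sub_mulVec, one_mulVec, hBv, smul_smul, smul_sub,
    smul_smul, ← sub_smul, ← add_smul]
  rw [show (1 - β) * β + (-β - -β * β) = 0 by ring, zero_smul]

/-- the sheared polynomial `p(x, x + y)` -/
def shear (p : MvPolynomial (Fin 2) ℂ) : MvPolynomial (Fin 2) ℂ :=
  ∑ m ∈ p.support, MvPolynomial.C (p.coeff m) * MvPolynomial.X 0 ^ m 0 *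
    (MvPolynomial.X 0 + MvPolynomial.X 1) ^ m 1

lemma eval_eq_fn (p : MvPolynomial (Fin 2) ℂ) (x y : ℂ) :
    MvPolynomial.eval ![x, y] p = fn p.support p.coeff x y := by
  rw [MvPolynomial.eval_eq', fn]
  refine Finset.sum_congr rfl fun m _ => ?_
  rw [Fin.prod_univ_two]
  simp only [cons_val_zero, cons_val_one]
  ring

lemma eval_shear (p : MvPolynomial (Fin 2) ℂ) (x y : ℂ) :
    MvPolynomial.eval ![x, y] (shear p) = MvPolynomial.eval ![x, x + y] p := by
  rw [eval_eq_fn p, shear, map_sum, fn]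
  refine Finset.sum_congr rfl fun m _ => ?_
  simp

lemma deg_eq (m : Fin 2 →₀ ℕ) : (m.sum fun _ e => e) = m 0 + m 1 := by
  rw [Finsupp.sum_fintype _ _ (by simp), Fin.sum_univ_two]

lemma deg_le_of_mem {p : MvPolynomial (Fin 2) ℂ} {n : ℕ} (h : p.totalDegree ≤ n)
    {m : Fin 2 →₀ ℕ} (hm : m ∈ p.support) : m 0 + m 1 ≤ n := by
  have h3 := MvPolynomial.le_totalDegree hm
  rw [deg_eq] at h3
  omega

lemma shear_deg {p : MvPolynomial (Fin 2) ℂ} {n : ℕ} (h : p.totalDegree ≤ n) :
    (shear p).totalDegree ≤ n := by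
  unfold shear
  refine MvPolynomial.totalDegree_finsetSum_le fun m hm => ?_
  have h1 := deg_le_of_mem h hm
  refine (MvPolynomial.totalDegree_mul _ _).trans ?_
  have h2 := MvPolynomial.totalDegree_mul (MvPolynomial.C (p.coeff m))
    ((MvPolynomial.X 0 : MvPolynomial (Fin 2) ℂ) ^ m 0)
  rw [MvPolynomial.totalDegree_C, MvPolynomial.totalDegree_X_pow] at h2
  have h3 := MvPolynomial.totalDegree_pow
    (MvPolynomial.X 0 + MvPolynomial.X 1 : MvPolynomial (Fin 2) ℂ) (m 1)
  have h4 := MvPolynomial.totalDegree_add (MvPolynomial.X 0 : MvPolynomial (Fin 2) ℂ)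
    (MvPolynomial.X 1)
  rw [MvPolynomial.totalDegree_X, MvPolynomial.totalDegree_X, max_self] at h4
  have h5 : m 1 * (MvPolynomial.X 0 + MvPolynomial.X 1 : MvPolynomial (Fin 2) ℂ).totalDegree
      ≤ m 1 * 1 := Nat.mul_le_mul_left _ h4
  omega

/-- parity of the exponents from the parity of the function -/
lemma par_of_eval {q : MvPolynomial (Fin 2) ℂ} {n : ℕ}
    (h : ∀ x y : ℂ, MvPolynomial.eval ![-x, -y] q = (-1) ^ n * MvPolynomial.eval ![x, y] q) :
    ∀ m ∈ q.support, (m 0 + m 1) % 2 = n % 2 := by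
  set P : MvPolynomial (Fin 2) ℂ := ∑ m ∈ q.support, MvPolynomial.monomial m
    (((-1) ^ (m 0 + m 1) - (-1) ^ n) * q.coeff m) with hP
  have hP0 : P = 0 := by
    apply MvPolynomial.funext
    intro v
    have hv : v = ![v 0, v 1] := by
      funext i; fin_cases i <;> rfl
    rw [hv]
    have h1 := h (v 0) (v 1)
    rw [eval_eq_fn, eval_eq_fn] at h1
    rw [map_zero, hP, map_sum]
    have h2 : fn q.support q.coeff (-v 0) (-v 1) - (-1) ^ n * fn q.support q.coeff (v 0) (v 1)
        = 0 := by rw [h1, sub_self]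
    rw [← h2]
    unfold fn
    rw [Finset.mul_sum, ← Finset.sum_sub_distrib]
    refine Finset.sum_congr rfl fun m _ => ?_
    rw [MvPolynomial.eval_monomial, Finsupp.prod_fintype _ _ (by simp), Fin.prod_univ_two]
    simp only [cons_val_zero, cons_val_one]
    rw [neg_pow (v 0), neg_pow (v 1), pow_add]
    ring
  intro m hm
  have h1 : P.coeff m = ((-1) ^ (m 0 + m 1) - (-1) ^ n) * q.coeff m := by
    rw [hP, MvPolynomial.coeff_sum]
    simp only [MvPolynomial.coeff_monomial]
    rw [Finset.sum_ite_eq' q.support m, if_pos hm]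
  rw [hP0, MvPolynomial.coeff_zero] at h1
  have h2 := (mul_eq_zero.1 h1.symm).resolve_right (MvPolynomial.mem_support_iff.1 hm)
  by_contra hcon
  rcases Nat.mod_two_eq_zero_or_one (m 0 + m 1) with h3 | h3 <;>
    rcases Nat.mod_two_eq_zero_or_one n with h4 | h4
  · omega
  · rw [(Nat.even_iff.2 h3).neg_one_pow, (Nat.odd_iff.2 h4).neg_one_pow] at h2
    norm_num at h2
  · rw [(Nat.odd_iff.2 h3).neg_one_pow, (Nat.even_iff.2 h4).neg_one_pow] at h2
    norm_num at h2
  · omega

lemma hom_eval {p : MvPolynomial (Fin 2) ℂ} {n : ℕ} (h : p.totalDegree ≤ n) (a b : ℂ) :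
    MvPolynomial.eval ![a, b] (MvPolynomial.homogeneousComponent n p) =
      gs n p.support p.coeff 0 a b := by
  rw [MvPolynomial.homogeneousComponent_apply, map_sum, gs, Finset.sum_filter]
  refine Finset.sum_congr rfl fun m hm => ?_
  have h1 := deg_le_of_mem h hm
  have h2 : m.degree = m 0 + m 1 := by
    rw [Finsupp.degree_eq_sum, Fin.sum_univ_two]
  by_cases h3 : m.degree = n
  · rw [if_pos h3, MvPolynomial.eval_monomial, Finsupp.prod_fintype _ _ (by simp),
      Fin.prod_univ_two, ← h2, h3, Nat.sub_self, pow_zero, mul_one]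
    simp only [cons_val_zero, cons_val_one]
    ring
  · rw [if_neg h3, zero_pow (by omega)]
    simp

/-- value of the homogenisation at `s = 0` for a determinantal polynomial -/
lemma gs_det {n : ℕ} {S : Finset (Fin 2 →₀ ℕ)} {c : (Fin 2 →₀ ℕ) → ℂ}
    (hdeg : ∀ m ∈ S, m 0 + m 1 ≤ n) {A B₁ B₂ : Matrix (Fin n) (Fin n) ℝ} {e : ℂ}
    (h : ∀ x y : ℂ, fn S c x y = e * (cm A + Complex.I • (x • cm B₁ + y • cm B₂)).det) (x y : ℂ) :
    gs n S c 0 x y = e * (Complex.I ^ n * (x • cm B₁ + y • cm B₂).det) := by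
  have h1 := eq_at_zero (f := fun s : ℝ => gs n S c (s : ℂ) x y)
    (g := fun s : ℝ => e * ((s : ℂ) • cm A + Complex.I • (x • cm B₁ + y • cm B₂)).det)
    (gs_cont x y) (by fun_prop) (fun s hs => by
      have hs' : (s : ℂ) ≠ 0 := by exact_mod_cast hs.ne'
      show gs n S c (s : ℂ) x y = e * ((s : ℂ) • cm A + Complex.I • (x • cm B₁ + y • cm B₂)).det
      rw [gs_eq hdeg hs', h]
      have e1 : (s : ℂ) • cm A + Complex.I • (x • cm B₁ + y • cm B₂) =
          (s : ℂ) • (cm A + Complex.I • ((x / s) • cm B₁ + (y / s) • cm B₂)) := by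
        ext i j
        simp only [Matrix.add_apply, Matrix.smul_apply, smul_eq_mul]
        field_simp
      rw [e1, det_smul, Fintype.card_fin]
      ring)
  have h2 : gs n S c 0 x y = e * (((0 : ℝ) : ℂ) • cm A + Complex.I • (x • cm B₁ + y • cm B₂)).det := by
    have h3 := h1
    simp only [Complex.ofReal_zero] at h3 ⊢
    exact h3
  rw [h2, Complex.ofReal_zero, zero_smul, zero_add, det_smul, Fintype.card_fin]

lemma det_cm {n : ℕ} (M : Matrix (Fin n) (Fin n) ℝ) : (cm M).det = ((M.det : ℝ) : ℂ) :=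
  (RingHom.map_det Complex.ofRealHom M).symm

/-- every stable polynomial with parity has a determinantal representation -/
theorem stable_rep {n : ℕ} {p : MvPolynomial (Fin 2) ℂ} (hdeg : p.totalDegree = n)
    (hpar : ∀ m ∈ p.support, (m 0 + m 1) % 2 = n % 2)
    (hst : ∀ x y : ℂ, 0 < x.im → 0 < y.im → MvPolynomial.eval ![x, y] p ≠ 0) :
    ∃ (A B₁ B₂ : Matrix (Fin n) (Fin n) ℝ) (c : ℂ),
      Aᵀ = -A ∧ B₁.PosSemidef ∧ B₂.PosSemidef ∧ B₁ + B₂ = 1 ∧ c ≠ 0 ∧
      (∀ x y : ℂ, MvPolynomial.eval ![x, y] p =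
        c * (cm A + Complex.I • (x • cm B₁ + y • cm B₂)).det) ∧
      (MvPolynomial.eval ![1, 0] (MvPolynomial.homogeneousComponent n p) ≠ 0 → B₁.PosDef) ∧
      (MvPolynomial.eval ![0, 1] (MvPolynomial.homogeneousComponent n p) ≠ 0 → B₂.PosDef) := by
  have hp0 : p ≠ 0 := by
    rintro rfl
    exact hst Complex.I Complex.I (by simp) (by simp) (by simp)
  have hdegp : ∀ m ∈ p.support, m 0 + m 1 ≤ n := fun m hm => deg_le_of_mem hdeg.le hm
  have hstp : StableFn p.support p.coeff := fun x y hx hy => by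
    rw [← eval_eq_fn]; exact hst x y hx hy
  have htop : ∃ m ∈ p.support, m 0 + m 1 = n ∧ p.coeff m ≠ 0 := by
    obtain ⟨m, hm, hm2⟩ := Finset.exists_mem_eq_sup p.support
      (MvPolynomial.support_nonempty.2 hp0) (fun s => s.sum fun _ e => e)
    refine ⟨m, hm, ?_, MvPolynomial.mem_support_iff.1 hm⟩
    rw [← deg_eq, ← hm2]
    exact hdeg
  set q := shear p with hq
  have hdq : q.totalDegree ≤ n := shear_deg hdeg.le
  have hdegq : ∀ m ∈ q.support, m 0 + m 1 ≤ n := fun m hm => deg_le_of_mem hdq hm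
  have hfq : ∀ x y : ℂ, fn q.support q.coeff x y = fn p.support p.coeff x (x + y) := by
    intro x y
    rw [← eval_eq_fn, ← eval_eq_fn, hq, eval_shear]
  have hparq : ∀ m ∈ q.support, (m 0 + m 1) % 2 = n % 2 := by
    apply par_of_eval
    intro x y
    rw [eval_eq_fn, eval_eq_fn, hfq, hfq, ← neg_add, fn_neg_of_par hpar]
  -- the leading coefficient
  have hgs : gs n q.support q.coeff 0 1 0 = gs n p.support p.coeff 0 1 1 := by
    have h1 := eq_at_zero (f := fun s : ℝ => gs n q.support q.coeff (s : ℂ) 1 0)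
      (g := fun s : ℝ => gs n p.support p.coeff (s : ℂ) 1 1) (gs_cont 1 0) (gs_cont 1 1)
      (fun s hs => by
        have hs' : (s : ℂ) ≠ 0 := by exact_mod_cast hs.ne'
        show gs n q.support q.coeff (s : ℂ) 1 0 = gs n p.support p.coeff (s : ℂ) 1 1
        rw [gs_eq hdegq hs', gs_eq hdegp hs', hfq]
        simp)
    simpa using h1
  have htop1 : gs n p.support p.coeff 0 1 1 ≠ 0 := by
    have := top_ne hdegp hstp htop (a := 1) (b := 1) one_pos one_pos
    simpa using this
  have hlead : gs n q.support q.coeff 0 1 0 = q.coeff (top0 n) := by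
    unfold gs
    rw [Finset.sum_eq_single (top0 n)]
    · simp
    · intro m hm hne
      have h1 := hdegq m hm
      by_cases h2 : m 1 = 0
      · have h3 : m 0 ≠ n := fun h3 => hne (eq_top0' h3 h2)
        rw [zero_pow (by omega)]
        simp
      · rw [zero_pow h2, mul_zero]
    · intro h1
      have h2 := MvPolynomial.notMem_support_iff.1 h1
      show q.coeff (top0 n) * _ * _ * _ = 0
      rw [h2]
      simp
  set a := q.coeff (top0 n) with ha
  have ha0 : a ≠ 0 := by
    rw [← hlead, hgs]; exact htop1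
  have hfa : ∀ x y : ℂ, fn q.support (fun m => a⁻¹ * q.coeff m) x y =
      a⁻¹ * fn q.support q.coeff x y := by
    intro x y
    unfold fn
    rw [Finset.mul_sum]
    exact Finset.sum_congr rfl fun m _ => by ring
  have hHP : HP n q.support (fun m => a⁻¹ * q.coeff m) := by
    refine ⟨?_, ?_, ?_, hparq, ?_⟩
    · intro m hm
      have := hdegq m hm
      exact ⟨by omega, fun h => by omega⟩
    · rw [MvPolynomial.mem_support_iff]; exact ha0
    · exact inv_mul_cancel₀ ha0
    · intro x y hx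
      rw [hfa, hfq]
      refine mul_ne_zero (inv_ne_zero ha0) (hstp _ _ hx ?_)
      simpa using hx
  obtain ⟨A, B, hA, hB, hAB⟩ := hHP.exists_linear hdegq
  have hrep : ∀ x y : ℂ, fn p.support p.coeff x y =
      (a * (-Complex.I) ^ n) * (cm A + Complex.I • (x • cm (1 - B) + y • cm B)).det := by
    intro x y
    have h1 := hfq x (y - x)
    rw [add_sub_cancel] at h1
    have h2 := hfa x (y - x)
    rw [hAB] at h2
    have h3 : fn q.support q.coeff x (y - x) = a * ((-Complex.I) ^ n *
        (cm A + Complex.I • (x • 1 + (y - x) • cm B)).det) := by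
      rw [h2, ← mul_assoc, mul_inv_cancel₀ ha0, one_mul]
    rw [← h1, h3, ← mul_assoc]
    congr 2
    ext i j
    simp only [Matrix.add_apply, Matrix.smul_apply, Matrix.map_apply, Matrix.sub_apply,
      smul_eq_mul, Matrix.one_apply]
    split_ifs <;> push_cast <;> ring
  have hgd : ∀ x y : ℂ, gs n p.support p.coeff 0 x y =
      (a * (-Complex.I) ^ n) * (Complex.I ^ n * (x • cm (1 - B) + y • cm B).det) :=
    gs_det hdegp hrep
  have hreal : ∀ x y : ℝ, ((x : ℂ) • cm (1 - B) + (y : ℂ) • cm B).det =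
      (((x • (1 - B) + y • B).det : ℝ) : ℂ) := by
    intro x y
    rw [← det_cm]
    congr 1
    ext i j
    simp
  have hne : ∀ x y : ℝ, 0 < x → 0 < y → (x • (1 - B) + y • B).det ≠ 0 := by
    intro x y hx hy h0
    have h1 := top_ne hdegp hstp htop hx hy
    rw [hgd, hreal, h0] at h1
    simp at h1
  have hB' : (1 - B)ᵀ = 1 - B := by rw [transpose_sub, transpose_one, hB]
  have p2 : B.PosSemidef := psd_of_pencil hB fun x y hx hy => by
    rw [add_comm]; exact hne y x hy hx
  have p1 : (1 - B).PosSemidef := psd_of_pencil hB' fun x y hx hy => by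
    rw [sub_sub_cancel]; exact hne x y hx hy
  refine ⟨A, 1 - B, B, a * (-Complex.I) ^ n, hA, p1, p2, sub_add_cancel _ _,
    mul_ne_zero ha0 (pow_ne_zero _ (neg_ne_zero.2 Complex.I_ne_zero)), ?_, ?_, ?_⟩
  · intro x y
    rw [eval_eq_fn, hrep]
  · intro h1
    rw [hom_eval hdeg.le, hgd] at h1
    rw [p1.posDef_iff_det_ne_zero]
    intro h2
    apply h1
    rw [one_smul, zero_smul, add_zero, det_cm, h2]
    simp
  · intro h1
    rw [hom_eval hdeg.le, hgd] at h1
    rw [p2.posDef_iff_det_ne_zero]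
    intro h2
    apply h1
    rw [one_smul, zero_smul, zero_add, det_cm, h2]
    simp

end

end Pool.Agent.Y58.Skw
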