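import Pool.Agent.Y58.Skw.Conv

set_option autoImplicit false
set_option linter.unusedSectionVars false

/-! Real-rooted polynomials of arbitrary degree in `y`. -/

namespace Pool.Agent.Y58.Skw

open Matrix
open Pool.Agent.W450

noncomputable section

lemma evc_sum (f : Polynomial ℝ) {d : ℕ} (hd : f.natDegree < d) (t : ℂ) :
    evc t f = ∑ k ∈ Finset.range d, t ^ k * ((f.coeff k : ℝ) : ℂ) := by
  show Polynomial.aeval t f = _
  rw [Polynomial.aeval_eq_sum_range' hd]
  refine Finset.sum_congr rfl fun k _ => ?_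
  rw [Complex.real_smul, mul_comm]

/-- the matrix polynomial -/
def pencil {N : ℕ} (d : ℕ) (A : ℕ → Matrix (Fin N) (Fin N) ℝ) (x y : ℂ) :
    Matrix (Fin N) (Fin N) ℂ :=
  (Complex.I * x) • (1 : Matrix (Fin N) (Fin N) ℂ) +
    ∑ k ∈ Finset.range d, (Complex.I * y) ^ k • cm (A k)

theorem HP.exists_pencil {n : ℕ} {S : Finset (Fin 2 →₀ ℕ)} {c : (Fin 2 →₀ ℕ) → ℂ}
    (h : HP n S c) : ∃ (d : ℕ) (A : ℕ → Matrix (Fin n) (Fin n) ℝ),
      (∀ k, (A k)ᵀ = (-1) ^ (k + 1) • A k) ∧
      (∀ x y : ℂ, fn S c x y = (-Complex.I) ^ n * (pencil d A x y).det) ∧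
      ((∀ m ∈ S, m 0 + m 1 ≤ n) → d = 2) := by
  by_cases hdeg : ∀ m ∈ S, m 0 + m 1 ≤ n
  · obtain ⟨A, B, hA, hB, hAB⟩ := h.exists_linear hdeg
    refine ⟨2, fun k => if k = 0 then A else if k = 1 then B else 0, fun k => ?_, fun x y => ?_,
      fun _ => rfl⟩
    · by_cases h0 : k = 0
      · subst h0; simp [hA]
      · by_cases h1 : k = 1
        · subst h1; simp [hB]
        · simp [h0, h1]
    · rw [hAB]
      congr 2
      unfold pencil
      rw [Finset.sum_range_succ, Finset.sum_range_one]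
      simp only [if_true, one_ne_zero, if_false, pow_zero, one_smul, pow_one]
      ext i j
      simp only [Matrix.add_apply, Matrix.smul_apply, smul_eq_mul]
      ring
  · obtain ⟨M, hM, hdet, -⟩ := h.exists_poly
    obtain ⟨d, hd⟩ : ∃ d : ℕ, ∀ i j, (M i j).natDegree < d := by
      refine ⟨(Finset.univ.sup fun p : Fin n × Fin n => (M p.1 p.2).natDegree) + 1, fun i j => ?_⟩
      have := Finset.le_sup (f := fun p : Fin n × Fin n => (M p.1 p.2).natDegree)
        (Finset.mem_univ (i, j))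
      exact Nat.lt_succ_of_le this
    refine ⟨d, fun k => -(M.map fun f => f.coeff k), fun k => ?_, fun x y => ?_,
      fun h1 => absurd h1 hdeg⟩
    · ext i j
      have h1 := congrFun (congrFun hM i) j
      have h2 : (M j i).comp (-Polynomial.X) = -M i j := by
        simpa [st, sg_apply] using h1
      have h3 := congrArg (fun f => Polynomial.coeff f k) h2
      have h4 := coeff_sg (M j i) k
      rw [sg_apply] at h4
      simp only [Polynomial.coeff_neg] at h3
      rw [h4] at h3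
      simp only [Matrix.transpose_apply, Matrix.neg_apply, Matrix.map_apply, Matrix.smul_apply]
      rcases Nat.even_or_odd k with hk | hk
      · rw [hk.neg_one_pow] at h3
        rw [(hk.add_one).neg_one_pow]
        simp
        linarith
      · rw [hk.neg_one_pow] at h3
        rw [(hk.add_one).neg_one_pow]
        simp
        linarith
    · rw [hdet]
      congr 2
      unfold pencil
      ext i j
      rw [Matrix.sub_apply, Matrix.map_apply, evc_sum (M i j) (hd i j), Matrix.add_apply,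
        Matrix.sum_apply]
      simp only [Matrix.smul_apply, Matrix.scalar_apply, Matrix.diagonal_apply, Matrix.one_apply,
        smul_eq_mul, Matrix.neg_apply, Matrix.map_apply, Complex.ofReal_neg, mul_neg,
        Finset.sum_neg_distrib, mul_ite, mul_one, mul_zero]
      ring

theorem poly_rep {N : ℕ} {p : MvPolynomial (Fin 2) ℂ}
    (hx : ∀ m ∈ p.support, m 0 ≤ N ∧ (m 0 = N → m 1 = 0))
    (hN : p.coeff (Finsupp.single 0 N) ≠ 0)
    (hpar : ∀ m ∈ p.support, (m 0 + m 1) % 2 = N % 2)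
    (hyp : ∀ (x : ℂ) (y : ℝ), 0 < x.im → MvPolynomial.eval ![x, (y : ℂ)] p ≠ 0) :
    ∃ (d : ℕ) (A : ℕ → Matrix (Fin N) (Fin N) ℝ) (c : ℂ),
      (∀ k, (A k)ᵀ = (-1) ^ (k + 1) • A k) ∧ c ≠ 0 ∧
      (∀ x y : ℂ, MvPolynomial.eval ![x, y] p = c * (pencil d A x y).det) ∧
      ((∀ m ∈ p.support, m 0 + m 1 ≤ N) → d = 2) := by
  set a := p.coeff (top0 N) with ha
  have hfa : ∀ x y : ℂ, fn p.support (fun m => a⁻¹ * p.coeff m) x y =
      a⁻¹ * fn p.support p.coeff x y := by
    intro x y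
    unfold fn
    rw [Finset.mul_sum]
    exact Finset.sum_congr rfl fun m _ => by ring
  have hHP : HP N p.support (fun m => a⁻¹ * p.coeff m) := by
    refine ⟨hx, ?_, ?_, hpar, ?_⟩
    · rw [MvPolynomial.mem_support_iff]; exact hN
    · exact inv_mul_cancel₀ hN
    · intro x y hx
      rw [hfa, ← eval_eq_fn]
      exact mul_ne_zero (inv_ne_zero hN) (hyp x y hx)
  obtain ⟨d, A, h1, h2, h3⟩ := hHP.exists_pencil
  refine ⟨d, A, a * (-Complex.I) ^ N, h1,
    mul_ne_zero hN (pow_ne_zero _ (neg_ne_zero.2 Complex.I_ne_zero)), fun x y => ?_, h3⟩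
  have h4 := hfa x y
  rw [h2] at h4
  rw [eval_eq_fn, mul_assoc, h4, ← mul_assoc, mul_inv_cancel₀ hN, one_mul]

lemma pencil_det_ne {N d : ℕ} {A : ℕ → Matrix (Fin N) (Fin N) ℝ}
    (hA : ∀ k, (A k)ᵀ = (-1) ^ (k + 1) • A k) {x : ℂ} (hx : 0 < x.im) (y : ℝ) :
    (pencil d A x (y : ℂ)).det ≠ 0 := by
  intro h0
  obtain ⟨v, hv, hMv⟩ := Matrix.exists_mulVec_eq_zero_iff.2 h0
  have e : star v ⬝ᵥ (pencil d A x (y : ℂ) *ᵥ v) = 0 := by
    rw [hMv, dotProduct_zero]
  unfold pencil at e
  rw [add_mulVec, dotProduct_add, smul_mulVec, dotProduct_smul, one_mulVec, Matrix.sum_mulVec,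
    dotProduct_sum] at e
  have hpos : ∃ r : ℝ, 0 < r ∧ star v ⬝ᵥ v = (r : ℂ) := by
    have h5 : (star v ⬝ᵥ v) = ((∑ i, ‖v i‖ ^ 2 : ℝ) : ℂ) := by
      rw [dotProduct]
      push_cast
      refine Finset.sum_congr rfl fun i _ => ?_
      rw [Pi.star_apply, Complex.star_def, mul_comm, Complex.mul_conj, Complex.normSq_eq_norm_sq]
      push_cast
      rfl
    refine ⟨_, ?_, h5⟩
    obtain ⟨i, hi⟩ : ∃ i, v i ≠ 0 := by
      by_contra hcon
      push Not at hcon
      exact hv (funext hcon)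
    exact Finset.sum_pos' (fun _ _ => by positivity) ⟨i, Finset.mem_univ _, by
      have := norm_pos_iff.2 hi
      positivity⟩
  obtain ⟨r, hr, hvr⟩ := hpos
  rw [hvr] at e
  have e' := congrArg Complex.re e
  have hk : ∀ k, (star v ⬝ᵥ (((Complex.I * (y : ℂ)) ^ k • cm (A k)) *ᵥ v)).re = 0 := by
    intro k
    rw [smul_mulVec, dotProduct_smul, smul_eq_mul, Complex.mul_re]
    rcases Nat.even_or_odd k with hk | hk
    · have h1 : (A k)ᵀ = -A k := by rw [hA k, (hk.add_one).neg_one_pow]; simp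
      obtain ⟨j, rfl⟩ := hk
      have h2 : (Complex.I * (y : ℂ)) ^ (j + j) = (((-1) ^ j * y ^ (j + j) : ℝ) : ℂ) := by
        rw [mul_pow, ← two_mul, pow_mul, Complex.I_sq]; push_cast; ring
      rw [h2, quad_skew h1, Complex.ofReal_im]
      ring
    · have h1 : (A k)ᵀ = A k := by rw [hA k, (hk.add_one).neg_one_pow]; simp
      obtain ⟨j, rfl⟩ := hk
      have h2 : (Complex.I * (y : ℂ)) ^ (2 * j + 1) =
          Complex.I * (((-1) ^ j * y ^ (2 * j + 1) : ℝ) : ℂ) := by
        rw [mul_pow, pow_succ Complex.I, pow_mul, Complex.I_sq]; push_cast; ring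
      rw [h2, quad_sym h1, Complex.mul_re, Complex.I_re, Complex.I_im, Complex.ofReal_im]
      ring
  rw [Complex.add_re, Complex.re_sum, Finset.sum_eq_zero (fun k _ => hk k)] at e'
  simp only [smul_eq_mul, Complex.mul_re, Complex.mul_im, Complex.I_re, Complex.I_im,
    Complex.ofReal_re, Complex.ofReal_im, Complex.zero_re] at e'
  have : 0 < x.im * r := by positivity
  linarith

end

end Pool.Agent.Y58.Skw
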