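import Pool.Agent.Y58.Skw.Hyp

set_option autoImplicit false
set_option linter.unusedSectionVars false

/-! The top form of a stable polynomial in two variables has no zeros in the open quadrant. -/

namespace Pool.Agent.Y58.Skw

open Polynomial Matrix Filter Topology
open Pool.Agent.W450

noncomputable section

lemma prod_mono (s : Multiset ℂ) (h : ∀ z ∈ s, z.im ≤ 0) :
    ‖(s.map ((0 : ℂ) - ·)).prod‖ ≤ ‖(s.map (Complex.I - ·)).prod‖ := by
  induction s using Multiset.induction_on with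
  | empty => simp
  | cons a s ih =>
    rw [Multiset.map_cons, Multiset.prod_cons, Multiset.map_cons, Multiset.prod_cons, norm_mul,
      norm_mul]
    have h1 : ‖(0 : ℂ) - a‖ ≤ ‖Complex.I - a‖ := by
      have h2 := h a (Multiset.mem_cons_self a s)
      rw [Complex.norm_def, Complex.norm_def]
      apply Real.sqrt_le_sqrt
      rw [Complex.normSq_apply, Complex.normSq_apply]
      simp only [Complex.sub_re, Complex.sub_im, Complex.zero_re, Complex.zero_im, Complex.I_re,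
        Complex.I_im]
      nlinarith
    exact mul_le_mul h1 (ih fun z hz => h z (Multiset.mem_cons_of_mem hz)) (norm_nonneg _)
      (norm_nonneg _)

lemma mono_poly (f : ℂ[X]) (h : ∀ z, f.eval z = 0 → z.im ≤ 0) :
    ‖f.eval 0‖ ≤ ‖f.eval Complex.I‖ := by
  by_cases hf : f = 0
  · rw [hf]; simp
  have hs := IsAlgClosed.splits f
  rw [hs.eval_eq_prod_roots, hs.eval_eq_prod_roots, norm_mul, norm_mul]
  refine mul_le_mul_of_nonneg_left (prod_mono _ fun z hz => h z ?_) (norm_nonneg _)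
  rw [mem_roots hf] at hz
  exact hz

/-- stability of a function given by coefficients -/
def StableFn (S : Finset (Fin 2 →₀ ℕ)) (c : (Fin 2 →₀ ℕ) → ℂ) : Prop :=
  ∀ x y : ℂ, 0 < x.im → 0 < y.im → fn S c x y ≠ 0

/-- the homogenisation -/
def gs (n : ℕ) (S : Finset (Fin 2 →₀ ℕ)) (c : (Fin 2 →₀ ℕ) → ℂ) (s x y : ℂ) : ℂ :=
  ∑ m ∈ S, c m * s ^ (n - (m 0 + m 1)) * x ^ m 0 * y ^ m 1

variable {n : ℕ} {S : Finset (Fin 2 →₀ ℕ)} {c : (Fin 2 →₀ ℕ) → ℂ}

lemma gs_eq (hdeg : ∀ m ∈ S, m 0 + m 1 ≤ n) {s : ℂ} (hs : s ≠ 0) (x y : ℂ) :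
    gs n S c s x y = s ^ n * fn S c (x / s) (y / s) := by
  unfold gs fn
  rw [Finset.mul_sum]
  refine Finset.sum_congr rfl fun m hm => ?_
  have h1 := hdeg m hm
  have h2 : s ^ n = s ^ (n - (m 0 + m 1)) * (s ^ m 0 * s ^ m 1) := by
    rw [← pow_add, ← pow_add]; congr 1; omega
  rw [h2, div_pow, div_pow]
  field_simp

lemma gs_cont (x y : ℂ) : Continuous fun s : ℝ => gs n S c (s : ℂ) x y := by
  unfold gs
  fun_prop

lemma fn_mono (hst : StableFn S c) {w0 w1 : ℂ} (h0 : 0 < w0.im) (h1 : 0 < w1.im) {u0 u1 : ℝ}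
    (hu0 : 0 ≤ u0) (hu1 : 0 ≤ u1) :
    ‖fn S c w0 w1‖ ≤ ‖fn S c (w0 + u0 * Complex.I) (w1 + u1 * Complex.I)‖ := by
  set f : ℂ[X] := ∑ m ∈ S, C (c m) * (C w0 + C (u0 : ℂ) * X) ^ m 0 * (C w1 + C (u1 : ℂ) * X) ^ m 1
    with hf
  have he : ∀ z, f.eval z = fn S c (w0 + u0 * z) (w1 + u1 * z) := by
    intro z
    rw [hf, eval_finsetSum]
    unfold fn
    refine Finset.sum_congr rfl fun m _ => ?_
    simp
  have h2 := mono_poly f (fun z hz => by
    by_contra hcon
    push Not at hcon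
    rw [he] at hz
    refine hst _ _ ?_ ?_ hz
    · have : (w0 + (u0 : ℂ) * z).im = w0.im + u0 * z.im := by simp
      rw [this]; positivity
    · have : (w1 + (u1 : ℂ) * z).im = w1.im + u1 * z.im := by simp
      rw [this]; positivity)
  rw [he, he] at h2
  simpa using h2

lemma gs_mono (hdeg : ∀ m ∈ S, m 0 + m 1 ≤ n) (hst : StableFn S c) {w0 w1 : ℂ} (h0 : 0 < w0.im)
    (h1 : 0 < w1.im) {u0 u1 : ℝ} (hu0 : 0 ≤ u0) (hu1 : 0 ≤ u1) :
    ‖gs n S c 0 w0 w1‖ ≤ ‖gs n S c 0 (w0 + u0 * Complex.I) (w1 + u1 * Complex.I)‖ := by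
  have key : ∀ s : ℝ, 0 < s →
      ‖gs n S c (s : ℂ) w0 w1‖ ≤ ‖gs n S c (s : ℂ) (w0 + u0 * Complex.I) (w1 + u1 * Complex.I)‖ := by
    intro s hs
    have hs' : (s : ℂ) ≠ 0 := by exact_mod_cast hs.ne'
    rw [gs_eq hdeg hs', gs_eq hdeg hs', norm_mul, norm_mul]
    refine mul_le_mul_of_nonneg_left ?_ (norm_nonneg _)
    have e0 : (w0 + u0 * Complex.I) / (s : ℂ) = w0 / s + ((u0 / s : ℝ) : ℂ) * Complex.I := by
      push_cast; ring
    have e1 : (w1 + u1 * Complex.I) / (s : ℂ) = w1 / s + ((u1 / s : ℝ) : ℂ) * Complex.I := by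
      push_cast; ring
    rw [e0, e1]
    have i0 : (w0 / (s : ℂ)).im = w0.im / s := Complex.div_ofReal_im w0 s
    have i1 : (w1 / (s : ℂ)).im = w1.im / s := Complex.div_ofReal_im w1 s
    exact fn_mono hst (by rw [i0]; positivity) (by rw [i1]; positivity) (by positivity)
      (by positivity)
  have t0 : Tendsto (fun k : ℕ => (1 / ((k : ℝ) + 1) : ℝ)) atTop (𝓝 0) :=
    tendsto_one_div_add_atTop_nhds_zero_nat
  have a1 := ((gs_cont (n := n) (S := S) (c := c) w0 w1).norm.tendsto 0).comp t0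
  have a2 := ((gs_cont (n := n) (S := S) (c := c) (w0 + u0 * Complex.I)
    (w1 + u1 * Complex.I)).norm.tendsto 0).comp t0
  have := le_of_tendsto_of_tendsto' a1 a2 (fun k => key _ (by positivity))
  simpa using this

lemma gs_zero_hom (x y r : ℂ) (hdeg : ∀ m ∈ S, m 0 + m 1 ≤ n) :
    gs n S c 0 (r * x) (r * y) = r ^ n * gs n S c 0 x y := by
  unfold gs
  rw [Finset.mul_sum]
  refine Finset.sum_congr rfl fun m hm => ?_
  have h1 := hdeg m hm
  by_cases h2 : m 0 + m 1 = n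
  · have h3 : r ^ n = r ^ m 0 * r ^ m 1 := by rw [← pow_add, h2]
    rw [h3, mul_pow, mul_pow]
    ring
  · rw [zero_pow (by omega)]
    simp

/-- the top form of a stable polynomial does not vanish at positive points -/
lemma top_ne (hdeg : ∀ m ∈ S, m 0 + m 1 ≤ n) (hst : StableFn S c)
    (htop : ∃ m ∈ S, m 0 + m 1 = n ∧ c m ≠ 0) {a b : ℝ} (ha : 0 < a) (hb : 0 < b) :
    gs n S c 0 a b ≠ 0 := by
  intro h0
  have h1 : ∀ a' b' : ℝ, 0 < a' → a' ≤ a → 0 < b' → b' ≤ b → gs n S c 0 a' b' = 0 := by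
    intro a' b' ha' haa hb' hbb
    have h2 := gs_mono (n := n) hdeg hst (w0 := Complex.I * a') (w1 := Complex.I * b')
      (by simpa using ha') (by simpa using hb') (u0 := a - a') (u1 := b - b') (by linarith)
      (by linarith)
    have e0 : Complex.I * (a' : ℂ) + ((a - a' : ℝ) : ℂ) * Complex.I = Complex.I * a := by
      push_cast; ring
    have e1 : Complex.I * (b' : ℂ) + ((b - b' : ℝ) : ℂ) * Complex.I = Complex.I * b := by
      push_cast; ring
    rw [e0, e1, gs_zero_hom _ _ _ hdeg, gs_zero_hom _ _ _ hdeg, h0, mul_zero, norm_zero] at h2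
    have h3 := norm_le_zero_iff.1 h2
    rcases mul_eq_zero.1 h3 with h4 | h4
    · exact absurd h4 (pow_ne_zero _ Complex.I_ne_zero)
    · exact h4
  set P : MvPolynomial (Fin 2) ℂ := ∑ m ∈ S, MvPolynomial.monomial m
    (c m * 0 ^ (n - (m 0 + m 1))) with hP
  have hP0 : P = 0 := by
    apply MvPolynomial.funext_set (![(fun r : ℝ => (r : ℂ)) '' Set.Ioc 0 a,
      (fun r : ℝ => (r : ℂ)) '' Set.Ioc 0 b])
    · intro i
      fin_cases i
      · exact (Set.Ioc_infinite ha).image Complex.ofReal_injective.injOn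
      · exact (Set.Ioc_infinite hb).image Complex.ofReal_injective.injOn
    · intro v hv
      obtain ⟨x, hx, hx'⟩ := hv 0 (Set.mem_univ _)
      obtain ⟨y, hy, hy'⟩ := hv 1 (Set.mem_univ _)
      rw [map_zero, hP, map_sum]
      refine Eq.trans ?_ (h1 x y hx.1 hx.2 hy.1 hy.2)
      unfold gs
      refine Finset.sum_congr rfl fun m _ => ?_
      rw [MvPolynomial.eval_monomial, Finsupp.prod_fintype _ _ (by simp), Fin.prod_univ_two, ← hx',
        ← hy']
      ring
  obtain ⟨m, hm, hmn, hcm⟩ := htop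
  have h2 : P.coeff m = c m * 0 ^ (n - (m 0 + m 1)) := by
    rw [hP, MvPolynomial.coeff_sum]
    simp only [MvPolynomial.coeff_monomial]
    rw [Finset.sum_ite_eq' S m, if_pos hm]
  rw [hP0, MvPolynomial.coeff_zero, hmn, Nat.sub_self, pow_zero, mul_one] at h2
  exact hcm h2.symm

end

end Pool.Agent.Y58.Skw
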